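import Pool.Agent.P8H33.QC.Stm3

/-!
# Package SGN of project QC (statement by helper33): even sign changes of a cyclic family
-/

namespace Pool.Agent.P8H41.QC

open Pool.Agent.P8H33.QC

/-- There is an element of `G` which changes the signs of `x i` and `x j` only. -/
def Ch {Ω : Type} [Field Ω] {ℓ : ℕ} (x : ZMod ℓ → Ω) (G : Set (Ω →+* Ω)) (i j : ZMod ℓ) : Prop :=
  ∃ f ∈ G, f (x i) = -x i ∧ f (x j) = -x j ∧ ∀ k, k ≠ i → k ≠ j → f (x k) = x k

theorem sgn : S_SGN := by
  intro Ω _ ℓ hℓ x G σ τ τ' hG hσ hτ hτ' _ ht ht' h0 h1 h2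
  haveI : NeZero ℓ := ⟨hℓ.out.ne_zero⟩
  have hstep : ∀ m : ℕ, Ch x G (m : ZMod ℓ) ((m : ZMod ℓ) + 1) := by
    intro m
    induction m with
    | zero =>
      refine ⟨σ, hσ, ?_, ?_, ?_⟩
      · simpa using h0
      · simpa using h1
      · intro k hk hk'
        exact h2 k (by simpa using hk) (by simpa using hk')
    | succ m ih =>
      obtain ⟨f, hf, e1, e2, e3⟩ := ih
      refine ⟨τ.comp (f.comp τ'), hG _ hτ _ (hG _ hf _ hτ'), ?_, ?_, ?_⟩
      · simp only [RingHom.comp_apply, ht']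
        rw [show ((m + 1 : ℕ) : ZMod ℓ) - 1 = (m : ZMod ℓ) by push_cast; ring, e1, map_neg, ht]
        push_cast; rfl
      · simp only [RingHom.comp_apply, ht']
        rw [show ((m + 1 : ℕ) : ZMod ℓ) + 1 - 1 = (m : ZMod ℓ) + 1 by push_cast; ring, e2, map_neg, ht]
        push_cast; rfl
      · intro k hk hk'
        simp only [RingHom.comp_apply, ht']
        rw [e3 (k - 1), ht, sub_add_cancel]
        · intro h
          apply hk
          rw [sub_eq_iff_eq_add] at h
          rw [h]; push_cast; rfl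
        · intro h
          apply hk'
          rw [sub_eq_iff_eq_add] at h
          rw [h]; push_cast; rfl
  have hone : ∀ i : ZMod ℓ, Ch x G i (i + 1) := by
    intro i
    have := hstep i.val
    rwa [ZMod.natCast_zmod_val] at this
  have hne : ∀ (i : ZMod ℓ) (n : ℕ), n + 1 < ℓ → i ≠ i + ((n + 1 : ℕ) : ZMod ℓ) := by
    intro i n hn h
    have h' : ((n + 1 : ℕ) : ZMod ℓ) = 0 := by
      have := h.symm
      rwa [add_eq_left] at this
    rw [ZMod.natCast_eq_zero_iff] at h'
    exact absurd (Nat.le_of_dvd (Nat.succ_pos n) h') (by omega)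
  have hall : ∀ (i : ZMod ℓ) (n : ℕ), n + 1 < ℓ → Ch x G i (i + ((n + 1 : ℕ) : ZMod ℓ)) := by
    intro i n
    induction n with
    | zero => intro _; simpa using hone i
    | succ n ih =>
      intro hn
      obtain ⟨f, hf, e1, e2, e3⟩ := ih (by omega)
      obtain ⟨g, hg, d1, d2, d3⟩ := hone (i + ((n + 1 : ℕ) : ZMod ℓ))
      have hs : i + ((n + 1 : ℕ) : ZMod ℓ) + 1 = i + ((n + 1 + 1 : ℕ) : ZMod ℓ) := by push_cast; ring
      rw [hs] at d2 d3
      have n1 := hne i n (by omega)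
      have n2 := hne i (n + 1) hn
      have n3 : i + ((n + 1 + 1 : ℕ) : ZMod ℓ) ≠ i + ((n + 1 : ℕ) : ZMod ℓ) := by
        rw [← hs]
        intro h
        rw [add_eq_left] at h
        haveI : Fact (1 < ℓ) := ⟨hℓ.out.one_lt⟩
        exact one_ne_zero h
      refine ⟨g.comp f, hG _ hg _ hf, ?_, ?_, ?_⟩
      · rw [RingHom.comp_apply, e1, map_neg, d3 i n1 n2]
      · rw [RingHom.comp_apply, e3 _ n2.symm n3, d2]
      · intro k hk hk'
        rw [RingHom.comp_apply]
        by_cases hk2 : k = i + ((n + 1 : ℕ) : ZMod ℓ)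
        · rw [hk2, e2, map_neg, d1, neg_neg]
        · rw [e3 k hk hk2, d3 k hk2 hk']
  intro i j hij
  have hv : (j - i).val ≠ 0 := by
    rw [Ne, ZMod.val_eq_zero, sub_eq_zero]
    exact fun h => hij h.symm
  obtain ⟨n, hn⟩ := Nat.exists_eq_succ_of_ne_zero hv
  have hl : n + 1 < ℓ := by
    have := ZMod.val_lt (j - i)
    omega
  have := hall i n hl
  have hj : i + ((n + 1 : ℕ) : ZMod ℓ) = j := by
    rw [← Nat.succ_eq_add_one, ← hn, ZMod.natCast_zmod_val]; ring
  rw [hj] at this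
  exact this

end Pool.Agent.P8H41.QC
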